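import Mathlib
import Pool.Agent.H373R2.NB.Weyl

/-!
# Pieces of project ZE (helper18), problem MP_4f096c_nt

For every large `N` one of the nine numbers `ζ(11), ζ(13), …, ζ(27)` is such that all Weyl sums, and all exponential
sums over primes and with the Moebius function, of length `N` with this number as (a multiple of the) leading
coefficient have a power saving.
-/

set_option autoImplicit false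

namespace Pool.Agent.H18Z

open Finset Polynomial

/-- `e(x) = exp(2 π i x)` -/
noncomputable def e (x : ℝ) : ℂ := Complex.exp (2 * Real.pi * Complex.I * x)

/-- No fraction `a / q` with `q ≤ N ^ θ` is near `x` at the scale `N`. -/
def Good (θ : ℝ) (N : ℕ) (x : ℝ) : Prop :=
  ∀ q : ℕ, 1 ≤ q → (q : ℝ) ≤ (N : ℝ) ^ θ → ∀ a : ℤ, (N : ℝ) ^ (-(1 / 2) : ℝ) < |q * x - a|

/-- The simultaneous measure with exponent `κ`. -/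
def Meas (ζ : ℕ → ℝ) (T : Finset ℕ) (κ : ℕ) : Prop :=
  ∃ c : ℝ, 0 < c ∧ ∀ (a : ℕ → ℤ) (q : ℕ), 0 < q → ∃ j ∈ T, c / (q : ℝ) ^ κ ≤ |ζ j - (a j : ℝ) / q|

/-- GOO (80 lines). Proof: otherwise there are arbitrarily large `N` such that for all `j ∈ T` there are `1 ≤ q_j ≤ N^θ`
and `a_j` with `|q_j ζ_j - a_j| ≤ N^(-1/2)`. Let `Q = ∏_{j ∈ T} q_j ≤ N^(θ |T|)` and `A_j = a_j Q / q_j`
(`A_j = a_j * ∏_{i ∈ T.erase j} q_i`). Then `|ζ_j - A_j / Q| = |ζ_j - a_j / q_j| ≤ N^(-1/2)` for all `j ∈ T`, so with `Meas`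
`c N^(-θ |T| κ) ≤ c / Q^κ ≤ N^(-1/2)`, `c N^(1/2 - θ |T| κ) ≤ 1`: false for large `N` as the exponent is positive. -/
def S_GOO : Prop := ∀ (ζ : ℕ → ℝ) (T : Finset ℕ) (κ : ℕ), Meas ζ T κ → ∀ θ : ℝ, 0 < θ →
  2 * ((κ : ℝ) * T.card) * θ < 1 → ∃ N₀ : ℕ, ∀ N : ℕ, N₀ ≤ N → ∃ j ∈ T, Good θ N (ζ j)

/-- PHP (50 lines). Like `Pool.Agent.H373R2.NB.Ph_poly` (end of Pool/Agent/H373R2/NB/Weyl.lean, the same statement for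
`γ *` integral polynomials), for real polynomials. Induction on `d`: `P.comp (X + C h) - P` has `natDegree ≤ d` if
`P.natDegree ≤ d + 1`, and its coefficient at `d` is `(d + 1) h P.coeff (d + 1)`. -/
def S_PHP : Prop := ∀ (d : ℕ) (P : ℝ[X]), P.natDegree ≤ d →
  Pool.Agent.H373R2.NB.Ph d ((d.factorial : ℝ) * P.coeff d) (fun n => P.eval (n : ℝ))

/-- WEY (120 lines), given PHP and `Pool.Agent.H373R2.NB.IW_all` (for each `d ≥ 1` there are `c_d, m_d` with the inverse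
theorem `IW d`; `Pool.Agent.Helper602.MK.ee` is `e` up to the order of the factors). Let `c ≥ c_d`, `m ≥ m_d` for all
`1 ≤ d ≤ D` (e.g. sums), `δ = min (θ / (2 (m + 1))) (1 / (4 (m + 1)))`. If `‖∑ e(P(n))‖ > N^(1-δ)`, take `u = N^δ`; with
`α = d! k x` there are `1 ≤ q ≤ c u^m` and `a` with `|q d! k x - a| ≤ c u^m / N^d ≤ c u^m / N`. Let `Q = q d! |k|`,
then `1 ≤ Q ≤ c D! u^(m+1) = c D! N^(δ(m+1)) ≤ c D! N^(θ/2) ≤ N^θ` for large `N` (not depending on `x`), and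
`|Q x - (± a)| ≤ c N^(δ m - 1) ≤ c N^(1/4 - 1) ≤ N^(-1/2)` for large `N`: this contradicts `Good θ N x`. -/
def S_WEY : Prop := ∀ (D : ℕ) (θ : ℝ), 0 < θ → ∃ δ : ℝ, 0 < δ ∧ ∃ N₀ : ℕ, ∀ N : ℕ, N₀ ≤ N → ∀ x : ℝ, Good θ N x →
  ∀ P : ℝ[X], 1 ≤ P.natDegree → P.natDegree ≤ D → ∀ k : ℤ, k ≠ 0 → |(k : ℝ)| ≤ (N : ℝ) ^ δ →
    P.leadingCoeff = k * x → ‖∑ n ∈ range N, e (P.eval (n : ℝ))‖ ≤ (N : ℝ) ^ (1 - δ)

/-- DIR (60 lines). Dirichlet: Mathlib `Real.exists_rat_abs_sub_le_and_den_le (k * x)` with `n = Nat.sqrt N`: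
`r : ℚ`, `q = r.den ≤ sqrt N`, `c = r.num`, `|k x - r| ≤ 1 / ((n + 1) q)`, and `(n + 1)^2 > N`, so
`|q k x - c| < N^(-1/2)`. If `q |k| ≤ N^θ` this contradicts `Good` (with `q |k|` and `± c`); so `q |k| > N^θ`,
`q > N^(θ - δ)`. And `1 / ((n + 1) q) ≤ 1 / q^2` as `q ≤ n`. -/
def S_DIR : Prop := ∀ (N : ℕ) (θ δ x : ℝ) (k : ℤ), 1 ≤ N → Good θ N x → k ≠ 0 → |(k : ℝ)| ≤ (N : ℝ) ^ δ →
  ∃ (q : ℕ) (c : ℤ), 1 ≤ q ∧ (N : ℝ) ^ (θ - δ) ≤ q ∧ (q : ℝ) ≤ (N : ℝ) ^ (1 / 2 : ℝ) ∧ IsCoprime c (q : ℤ) ∧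
    |k * x - c / q| ≤ 1 / (q : ℝ) ^ 2

/-- PRI (100 lines). `Pool.Agent.H373R2.T7.block_lin` with `U = Nat.sqrt (Nat.sqrt N)` (so `U * U ≤ sqrt N ≤ N`, and
`U ≥ N^(1/4) / 2` for large `N`); `Pool.Agent.H807R2.Dav.ee` is `e` (see `mk_ee` in H373R2/T7/BilLam.lean). With
`η' = min η (1/4)` the right hand side is at most `C (log N)^7 N^(1 - η'/2)`, so `δ = η' / 4` is possible for large `N`.
(`log q ≤ log N`, `Nat.log 2 (U U) ≤ 2 log N` and `(log N)^7 = o(N^ε)`: `isLittleO_log_rpow_rpow_atTop` or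
`Real.log_le_rpow_div`.) -/
def S_PRI : Prop := ∀ η : ℝ, 0 < η → ∃ δ : ℝ, 0 < δ ∧ ∃ N₀ : ℕ, ∀ N : ℕ, N₀ ≤ N → ∀ (α : ℝ) (q : ℕ) (c : ℤ), 1 ≤ q →
  (N : ℝ) ^ η ≤ q → (q : ℝ) ≤ (N : ℝ) ^ (1 / 2 : ℝ) → IsCoprime c (q : ℤ) → |α - c / q| ≤ 1 / (q : ℝ) ^ 2 →
  ∀ N' : ℕ, N ≤ N' → N' ≤ 2 * N →
    ‖∑ n ∈ Ioc N N', ((ArithmeticFunction.vonMangoldt n : ℝ) : ℂ) * e (n * α)‖ ≤ (N : ℝ) ^ (1 - δ)

/-- MOB (100 lines). The same with `Pool.Agent.H373R2.T7.block_mu`. -/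
def S_MOB : Prop := ∀ η : ℝ, 0 < η → ∃ δ : ℝ, 0 < δ ∧ ∃ N₀ : ℕ, ∀ N : ℕ, N₀ ≤ N → ∀ (α : ℝ) (q : ℕ) (c : ℤ), 1 ≤ q →
  (N : ℝ) ^ η ≤ q → (q : ℝ) ≤ (N : ℝ) ^ (1 / 2 : ℝ) → IsCoprime c (q : ℤ) → |α - c / q| ≤ 1 / (q : ℝ) ^ 2 →
  ∀ N' : ℕ, N ≤ N' → N' ≤ 2 * N →
    ‖∑ n ∈ Ioc N N', (((ArithmeticFunction.moebius n : ℤ) : ℝ) : ℂ) * e (n * α)‖ ≤ (N : ℝ) ^ (1 - δ)

/-- RAT (40 lines). `k = x.den`, all terms are `1` (`k x n = x.num n` is an integer); `N > N^(1-δ)` for `N ≥ 2`. -/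
def S_RAT : Prop := ∀ (x : ℚ) (δ : ℝ), 0 < δ → ∃ N₀ : ℕ, ∀ N : ℕ, N₀ ≤ N → ∃ k : ℤ, k ≠ 0 ∧
  |(k : ℝ)| ≤ (N : ℝ) ^ δ ∧ (N : ℝ) ^ (1 - δ) < ‖∑ n ∈ range N, e (k * (x : ℝ) * n)‖

end Pool.Agent.H18Z
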