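import Mathlib
import Pool.Agent.H18Z.Stm

/-!
# DIR: an approximation by Dirichlet's theorem with a large denominator
-/

set_option autoImplicit false

namespace Pool.Agent.H18Z

open Finset Polynomial

theorem t_DIR : S_DIR := by
  intro N θ δ x k hN hG hk hkN
  have hN' : (0 : ℝ) < N := by exact_mod_cast hN
  have hn0 : 0 < Nat.sqrt N := Nat.sqrt_pos.2 (by omega)
  obtain ⟨r, hr1, hr2⟩ := Real.exists_rat_abs_sub_le_and_den_le ((k : ℝ) * x) hn0
  have hq0 : 0 < r.den := r.den_pos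
  have hq0' : (0 : ℝ) < r.den := by exact_mod_cast hq0
  have hrr : (r : ℝ) = (r.num : ℝ) / (r.den : ℝ) := Rat.cast_def r
  have hnq : (r.den : ℝ) ≤ (Nat.sqrt N : ℝ) := by exact_mod_cast hr2
  have hns : (Nat.sqrt N : ℝ) ≤ √(N : ℝ) := Real.nat_sqrt_le_real_sqrt
  refine ⟨r.den, r.num, hq0, ?_, ?_, Int.isCoprime_iff_gcd_eq_one.2 r.reduced, ?_⟩
  · by_contra hlt
    rw [not_le] at hlt
    have hk1 : 1 ≤ k.natAbs := Int.natAbs_pos.2 hk
    have habs : ((k.natAbs : ℕ) : ℝ) = |(k : ℝ)| := by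
      rw [Nat.cast_natAbs, Int.cast_abs]
    have h1 : ((r.den * k.natAbs : ℕ) : ℝ) ≤ (N : ℝ) ^ θ := by
      rw [Nat.cast_mul, habs]
      calc (r.den : ℝ) * |(k : ℝ)| ≤ (N : ℝ) ^ (θ - δ) * (N : ℝ) ^ δ :=
            mul_le_mul hlt.le hkN (abs_nonneg _) (Real.rpow_nonneg hN'.le _)
        _ = (N : ℝ) ^ θ := by
            rw [← Real.rpow_add hN']
            congr 1
            ring
    have h2 : 1 ≤ r.den * k.natAbs := Nat.mul_pos hq0 hk1
    have h5 : |(r.den : ℝ) * ((k : ℝ) * x) - r.num| ≤ 1 / ((Nat.sqrt N : ℝ) + 1) := by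
      have h7 : (r.den : ℝ) * ((k : ℝ) * x) - r.num = r.den * ((k : ℝ) * x - r) := by
        rw [hrr]
        field_simp
      rw [h7, abs_mul, abs_of_pos hq0']
      calc (r.den : ℝ) * |(k : ℝ) * x - r| ≤ r.den * (1 / (((Nat.sqrt N : ℝ) + 1) * r.den)) :=
            mul_le_mul_of_nonneg_left hr1 hq0'.le
        _ = 1 / ((Nat.sqrt N : ℝ) + 1) := by field_simp
    have h6 : 1 / ((Nat.sqrt N : ℝ) + 1) < (N : ℝ) ^ (-(1 / 2) : ℝ) := by
      rw [Real.rpow_neg hN'.le, ← Real.sqrt_eq_rpow, ← one_div]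
      apply one_div_lt_one_div_of_lt (Real.sqrt_pos.2 hN')
      rw [Real.sqrt_lt' (by positivity)]
      have h8 : N < (Nat.sqrt N + 1) ^ 2 := by
        rw [sq]
        exact Nat.lt_succ_sqrt N
      exact_mod_cast h8
    rcases lt_or_gt_of_ne hk with h | h
    · have h3 := hG _ h2 h1 (-r.num)
      have h4 : |((r.den * k.natAbs : ℕ) : ℝ) * x - ((-r.num : ℤ) : ℝ)| =
          |(r.den : ℝ) * ((k : ℝ) * x) - r.num| := by
        rw [Nat.cast_mul, habs, abs_of_neg (show (k : ℝ) < 0 by exact_mod_cast h), ← abs_neg]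
        congr 1
        push_cast
        ring
      rw [h4] at h3
      linarith
    · have h3 := hG _ h2 h1 r.num
      have h4 : |((r.den * k.natAbs : ℕ) : ℝ) * x - ((r.num : ℤ) : ℝ)| =
          |(r.den : ℝ) * ((k : ℝ) * x) - r.num| := by
        rw [Nat.cast_mul, habs, abs_of_pos (show (0 : ℝ) < k by exact_mod_cast h)]
        congr 1
        ring
      rw [h4] at h3
      linarith
  · rw [← Real.sqrt_eq_rpow]
    exact hnq.trans hns
  · rw [← hrr]
    refine hr1.trans ?_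
    rw [sq]
    apply one_div_le_one_div_of_le (by positivity)
    exact mul_le_mul_of_nonneg_right (by linarith) hq0'.le

end Pool.Agent.H18Z
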