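import Mathlib
import Pool.Agent.H18Z.Stm

set_option autoImplicit false

namespace Pool.Agent.H18Z

open Finset

theorem t_GOO : S_GOO := by
  classical
  intro ζ T κ hM θ hθ hθ2
  obtain ⟨c, hc, h⟩ := hM
  have hpos : 0 < 1 / 2 - (κ : ℝ) * T.card * θ := by linarith
  have ht : Filter.Tendsto (fun N : ℕ => c * (N : ℝ) ^ (1 / 2 - (κ : ℝ) * T.card * θ)) Filter.atTop Filter.atTop :=
    ((tendsto_rpow_atTop hpos).comp tendsto_natCast_atTop_atTop).const_mul_atTop hc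
  obtain ⟨N₀, hN₀⟩ := Filter.eventually_atTop.1 (ht.eventually_gt_atTop 1)
  refine ⟨max N₀ 1, fun N hN => ?_⟩
  have hN1 : 1 ≤ N := le_trans (le_max_right _ _) hN
  have hNr : (1 : ℝ) ≤ N := by exact_mod_cast hN1
  have hN0 : (0 : ℝ) < N := by linarith
  have hbig := hN₀ N (le_trans (le_max_left _ _) hN)
  by_contra hcon
  push Not at hcon
  have hb : ∀ j ∈ T, ∃ q : ℕ, 1 ≤ q ∧ (q : ℝ) ≤ (N : ℝ) ^ θ ∧
      ∃ a : ℤ, |q * ζ j - a| ≤ (N : ℝ) ^ (-(1 / 2) : ℝ) := by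
    intro j hj
    have h1 := hcon j hj
    unfold Good at h1
    push Not at h1
    obtain ⟨q, h2, h3, a, h4⟩ := h1
    exact ⟨q, h2, h3, a, h4⟩
  choose! q hq1 hq2 a ha using hb
  have hQ : 0 < ∏ j ∈ T, q j := prod_pos fun j hj => hq1 j hj
  obtain ⟨j, hj, h1⟩ := h (fun j => a j * ∏ i ∈ T.erase j, (q i : ℤ)) (∏ j ∈ T, q j) hQ
  have hqj : (0 : ℝ) < q j := by exact_mod_cast hq1 j hj
  have hqj1 : (1 : ℝ) ≤ q j := by exact_mod_cast hq1 j hj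
  have hP : (0 : ℝ) < ∏ i ∈ T.erase j, (q i : ℝ) := prod_pos fun i hi => by
    exact_mod_cast hq1 i (mem_of_mem_erase hi)
  have hQe : ((∏ j ∈ T, q j : ℕ) : ℝ) = q j * ∏ i ∈ T.erase j, (q i : ℝ) := by
    rw [Nat.cast_prod, Finset.mul_prod_erase T (fun i => (q i : ℝ)) hj]
  have e1 : ζ j - ((a j * ∏ i ∈ T.erase j, (q i : ℤ) : ℤ) : ℝ) / ((∏ j ∈ T, q j : ℕ) : ℝ) =
      (q j * ζ j - a j) / q j := by
    rw [hQe]
    push_cast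
    field_simp
  have h2 : |ζ j - ((a j * ∏ i ∈ T.erase j, (q i : ℤ) : ℤ) : ℝ) / ((∏ j ∈ T, q j : ℕ) : ℝ)| ≤
      (N : ℝ) ^ (-(1 / 2) : ℝ) := by
    rw [e1, abs_div, abs_of_pos hqj]
    exact (div_le_self (abs_nonneg _) hqj1).trans (ha j hj)
  have hQle : ((∏ j ∈ T, q j : ℕ) : ℝ) ≤ ((N : ℝ) ^ θ) ^ T.card := by
    rw [Nat.cast_prod, ← Finset.prod_const]
    exact Finset.prod_le_prod (fun i _ => Nat.cast_nonneg _) (fun i hi => hq2 i hi)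
  have hQ0 : (0 : ℝ) < ((∏ j ∈ T, q j : ℕ) : ℝ) := by exact_mod_cast hQ
  have h3 : ((∏ j ∈ T, q j : ℕ) : ℝ) ^ κ ≤ (N : ℝ) ^ ((κ : ℝ) * T.card * θ) := by
    calc ((∏ j ∈ T, q j : ℕ) : ℝ) ^ κ ≤ (((N : ℝ) ^ θ) ^ T.card) ^ κ := pow_le_pow_left₀ hQ0.le hQle κ
      _ = (N : ℝ) ^ ((κ : ℝ) * T.card * θ) := by
          rw [← pow_mul, ← Real.rpow_natCast, ← Real.rpow_mul hN0.le]
          congr 1
          push_cast
          ring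
  have h4 : c ≤ (N : ℝ) ^ (-(1 / 2) : ℝ) * (N : ℝ) ^ ((κ : ℝ) * T.card * θ) := by
    have h5 := h1.trans h2
    rw [div_le_iff₀ (pow_pos hQ0 κ)] at h5
    exact h5.trans (mul_le_mul_of_nonneg_left h3 (Real.rpow_nonneg hN0.le _))
  have h5 : c * (N : ℝ) ^ (1 / 2 - (κ : ℝ) * T.card * θ) ≤ 1 := by
    calc c * (N : ℝ) ^ (1 / 2 - (κ : ℝ) * T.card * θ)
        ≤ ((N : ℝ) ^ (-(1 / 2) : ℝ) * (N : ℝ) ^ ((κ : ℝ) * T.card * θ)) *
          (N : ℝ) ^ (1 / 2 - (κ : ℝ) * T.card * θ) :=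
          mul_le_mul_of_nonneg_right h4 (Real.rpow_nonneg hN0.le _)
      _ = 1 := by
          rw [← Real.rpow_add hN0, ← Real.rpow_add hN0]
          rw [show -(1 / 2 : ℝ) + (κ : ℝ) * T.card * θ + (1 / 2 - (κ : ℝ) * T.card * θ) = 0 by ring, Real.rpow_zero]
  linarith

end Pool.Agent.H18Z
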