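import Pool.Agent.H18Z.Stm
import Pool.Agent.H373R2.T7.Minor

/-!
# Project ZE, piece PRI (helper41)
-/

set_option autoImplicit false

namespace Pool.Agent.H18Z

open Finset Polynomial Filter

namespace PRIx

theorem ee_eq (x : ℝ) : Pool.Agent.H807R2.Dav.ee x = e x := by
  unfold Pool.Agent.H807R2.Dav.ee e
  congr 1

/-- the fourth root -/
theorem root (N : ℕ) (hN : 1 ≤ N) : 1 ≤ Nat.sqrt (Nat.sqrt N) ∧
    Nat.sqrt (Nat.sqrt N) * Nat.sqrt (Nat.sqrt N) ≤ N ∧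
    (((Nat.sqrt (Nat.sqrt N) * Nat.sqrt (Nat.sqrt N) : ℕ)) : ℝ) ≤ (N : ℝ) ^ (1 / 2 : ℝ) ∧
    (N : ℝ) ^ (1 / 4 : ℝ) ≤ 2 * (Nat.sqrt (Nat.sqrt N) : ℝ) := by
  set M := Nat.sqrt N with hM
  set U := Nat.sqrt M with hU
  have h1 : M * M ≤ N := Nat.sqrt_le N
  have h2 : U * U ≤ M := Nat.sqrt_le M
  have h3 : N < (M + 1) * (M + 1) := Nat.lt_succ_sqrt N
  have h4 : M < (U + 1) * (U + 1) := Nat.lt_succ_sqrt M
  have hM1 : 1 ≤ M := by
    rw [hM]
    exact Nat.sqrt_pos.2 hN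
  have hU1 : 1 ≤ U := by
    rw [hU]
    exact Nat.sqrt_pos.2 hM1
  have hN0 : (0 : ℝ) ≤ N := Nat.cast_nonneg N
  refine ⟨hU1, ?_, ?_, ?_⟩
  · exact h2.trans ((Nat.le_mul_self M).trans h1)
  · have h5 : (M : ℝ) ≤ (N : ℝ) ^ (1 / 2 : ℝ) := by
      rw [← Real.sqrt_eq_rpow]
      refine Real.le_sqrt_of_sq_le ?_
      rw [sq]
      exact_mod_cast h1
    refine le_trans ?_ h5
    exact_mod_cast h2
  · have h5 : N < (U + 1) ^ 4 := by
      have h6 : M + 1 ≤ (U + 1) * (U + 1) := h4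
      calc N < (M + 1) * (M + 1) := h3
        _ ≤ ((U + 1) * (U + 1)) * ((U + 1) * (U + 1)) := Nat.mul_le_mul h6 h6
        _ = (U + 1) ^ 4 := by ring
    have h7 : (N : ℝ) ≤ ((U : ℝ) + 1) ^ (4 : ℕ) := by exact_mod_cast h5.le
    have h8 : (N : ℝ) ^ (1 / 4 : ℝ) ≤ (U : ℝ) + 1 := by
      have h9 : (N : ℝ) ^ (1 / 4 : ℝ) ≤ (((U : ℝ) + 1) ^ (4 : ℕ)) ^ (1 / 4 : ℝ) :=
        Real.rpow_le_rpow hN0 h7 (by norm_num)
      have h10 : (((U : ℝ) + 1) ^ (4 : ℕ)) ^ (1 / 4 : ℝ) = (U : ℝ) + 1 := by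
        rw [← Real.rpow_natCast, ← Real.rpow_mul (by positivity)]
        norm_num
      rw [h10] at h9
      exact h9
    have h11 : (1 : ℝ) ≤ U := by exact_mod_cast hU1
    linarith

theorem logU (U : ℕ) (hU : 1 ≤ U) : ((Nat.log 2 (U * U) : ℕ) : ℝ) ≤ 2 * Real.log ((U * U : ℕ) : ℝ) := by
  have hpos : (0 : ℝ) < ((U * U : ℕ) : ℝ) := by exact_mod_cast Nat.mul_pos hU hU
  have h1 : 2 ^ (Nat.log 2 (U * U)) ≤ U * U := Nat.pow_log_le_self 2 (Nat.mul_pos hU hU).ne'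
  have h2 : ((2 : ℝ)) ^ (Nat.log 2 (U * U)) ≤ ((U * U : ℕ) : ℝ) := by exact_mod_cast h1
  have h3 := Real.log_le_log (by positivity) h2
  rw [Real.log_pow] at h3
  have h4 : (1 / 2 : ℝ) ≤ Real.log 2 := by
    have := Real.log_two_gt_d9
    linarith
  have h5 : (0 : ℝ) ≤ ((Nat.log 2 (U * U) : ℕ) : ℝ) := Nat.cast_nonneg _
  nlinarith

/-- the algebra -/
theorem bound (N U q : ℕ) (η' : ℝ) (hN : 3 ≤ N) (hη0 : 0 < η') (hη : η' ≤ 1 / 4) (hq1 : 1 ≤ q)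
    (hq : (N : ℝ) ^ η' ≤ q) (hq2 : (q : ℝ) ≤ (N : ℝ) ^ (1 / 2 : ℝ)) (hU1 : 1 ≤ U)
    (hU2 : (((U * U : ℕ)) : ℝ) ≤ (N : ℝ) ^ (1 / 2 : ℝ)) (hU3 : (N : ℝ) ^ (1 / 4 : ℝ) ≤ 2 * (U : ℝ)) :
    8 * (1 + Real.log (4 * N)) ^ 5 * Real.sqrt (672 * (1 + Real.log q) * (N * ((N : ℝ) / q + N / U + q))) +
      3 * (1 + Real.log (4 * N)) * (600 * (Nat.log 2 (U * U) + 1 : ℝ) * ((N : ℝ) / q + (U * U : ℕ) + q) * (1 + Real.log q)) ≤
      12000 * (4 * Real.log N) ^ 6 * (N : ℝ) ^ (1 - η' / 2) := by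
  have hN3 : (3 : ℝ) ≤ N := by exact_mod_cast hN
  have hN0 : (0 : ℝ) < N := by linarith
  have hN1 : (1 : ℝ) ≤ N := by linarith
  have hq0 : (0 : ℝ) < q := by exact_mod_cast hq1
  have hU0 : (0 : ℝ) < U := by exact_mod_cast hU1
  have hln : 1 ≤ Real.log N := by
    rw [Real.le_log_iff_exp_le hN0]
    have := Real.exp_one_lt_d9
    linarith
  have hl4 : Real.log 4 ≤ 2 := by
    have h1 : Real.log 4 = 2 * Real.log 2 := by
      rw [show (4 : ℝ) = 2 ^ 2 by norm_num, Real.log_pow]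
      push_cast
      ring
    have := Real.log_two_lt_d9
    linarith
  set L := 1 + Real.log (4 * (N : ℝ)) with hL
  have hL4 : L ≤ 4 * Real.log N := by
    rw [hL, Real.log_mul (by norm_num) hN0.ne']
    linarith
  have hlL : Real.log N ≤ L := by
    rw [hL, Real.log_mul (by norm_num) hN0.ne']
    have : 0 ≤ Real.log 4 := Real.log_nonneg (by norm_num)
    linarith
  have hL1 : 1 ≤ L := hln.trans hlL
  have hlq : 1 + Real.log q ≤ L := by
    have h1 : (q : ℝ) ≤ 4 * N := by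
      refine hq2.trans ?_
      have h2 : (N : ℝ) ^ (1 / 2 : ℝ) ≤ (N : ℝ) ^ (1 : ℝ) :=
        Real.rpow_le_rpow_of_exponent_le hN1 (by norm_num)
      rw [Real.rpow_one] at h2
      linarith
    have := Real.log_le_log hq0 h1
    linarith
  have hlq0 : 0 ≤ Real.log q := Real.log_nonneg (by exact_mod_cast hq1)
  set A := (N : ℝ) ^ (1 - η') with hA
  set B := (N : ℝ) ^ (1 - η' / 2) with hB
  have hA0 : 0 < A := Real.rpow_pos_of_pos hN0 _
  have hB0 : 0 < B := Real.rpow_pos_of_pos hN0 _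
  have hAB : A ≤ B := Real.rpow_le_rpow_of_exponent_le hN1 (by linarith)
  have hNA : N * A = B * B := by
    rw [hA, hB, ← Real.rpow_add hN0]
    nth_rewrite 1 [← Real.rpow_one (N : ℝ)]
    rw [← Real.rpow_add hN0]
    congr 1
    ring
  have h12 : (N : ℝ) ^ (1 / 2 : ℝ) ≤ A := Real.rpow_le_rpow_of_exponent_le hN1 (by linarith)
  have hNq : (N : ℝ) / q ≤ A := by
    rw [div_le_iff₀ hq0]
    have h1 : A * (N : ℝ) ^ η' = N := by
      rw [hA, ← Real.rpow_add hN0, sub_add_cancel, Real.rpow_one]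
    calc (N : ℝ) = A * (N : ℝ) ^ η' := h1.symm
      _ ≤ A * q := mul_le_mul_of_nonneg_left hq hA0.le
  have hNU : (N : ℝ) / U ≤ 2 * A := by
    rw [div_le_iff₀ hU0]
    have h1 : (N : ℝ) ^ (3 / 4 : ℝ) * (N : ℝ) ^ (1 / 4 : ℝ) = N := by
      rw [← Real.rpow_add hN0]
      norm_num
    have h2 : (N : ℝ) ^ (3 / 4 : ℝ) ≤ A := Real.rpow_le_rpow_of_exponent_le hN1 (by linarith)
    have h3 : (0 : ℝ) ≤ (N : ℝ) ^ (1 / 4 : ℝ) := (Real.rpow_pos_of_pos hN0 _).le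
    calc (N : ℝ) = (N : ℝ) ^ (3 / 4 : ℝ) * (N : ℝ) ^ (1 / 4 : ℝ) := h1.symm
      _ ≤ A * (2 * U) := mul_le_mul h2 hU3 h3 hA0.le
      _ = 2 * A * U := by ring
  have hsq : Real.sqrt (672 * (1 + Real.log q) * (N * ((N : ℝ) / q + N / U + q))) ≤ 52 * L * B := by
    refine Real.sqrt_le_iff.2 ⟨by positivity, ?_⟩
    have h1 : (N : ℝ) / q + N / U + q ≤ 4 * A := by linarith
    have h2 : N * ((N : ℝ) / q + N / U + q) ≤ 4 * (B * B) := by
      rw [← hNA]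
      calc N * ((N : ℝ) / q + N / U + q) ≤ N * (4 * A) := mul_le_mul_of_nonneg_left h1 hN0.le
        _ = 4 * (N * A) := by ring
    have h3 : 672 * (1 + Real.log q) ≤ 672 * L := by linarith
    calc 672 * (1 + Real.log q) * (N * ((N : ℝ) / q + N / U + q)) ≤ 672 * L * (4 * (B * B)) :=
          mul_le_mul h3 h2 (by positivity) (by positivity)
      _ = 2688 * L * (B * B) := by ring
      _ ≤ 2704 * (L * L) * (B * B) := by
          refine mul_le_mul_of_nonneg_right ?_ (by positivity)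
          nlinarith
      _ = (52 * L * B) ^ 2 := by ring
  have ht1 : 8 * L ^ 5 * Real.sqrt (672 * (1 + Real.log q) * (N * ((N : ℝ) / q + N / U + q))) ≤
      416 * L ^ 6 * B := by
    calc _ ≤ 8 * L ^ 5 * (52 * L * B) := mul_le_mul_of_nonneg_left hsq (by positivity)
      _ = 416 * L ^ 6 * B := by ring
  have hlU : (Nat.log 2 (U * U) + 1 : ℝ) ≤ 2 * L := by
    have h1 := logU U hU1
    have hpos : (0 : ℝ) < ((U * U : ℕ) : ℝ) := by exact_mod_cast Nat.mul_pos hU1 hU1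
    have h2 : Real.log ((U * U : ℕ) : ℝ) ≤ Real.log ((N : ℝ) ^ (1 / 2 : ℝ)) := Real.log_le_log hpos hU2
    rw [Real.log_rpow hN0] at h2
    linarith
  have hs2 : (N : ℝ) / q + (U * U : ℕ) + q ≤ 3 * B := by linarith
  have ht2 : 3 * L * (600 * (Nat.log 2 (U * U) + 1 : ℝ) * ((N : ℝ) / q + (U * U : ℕ) + q) * (1 + Real.log q)) ≤
      10800 * L ^ 6 * B := by
    have h1 : 600 * (Nat.log 2 (U * U) + 1 : ℝ) * ((N : ℝ) / q + (U * U : ℕ) + q) * (1 + Real.log q) ≤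
        600 * (2 * L) * (3 * B) * L := by
      refine mul_le_mul ?_ hlq (by positivity) (by positivity)
      refine mul_le_mul ?_ hs2 (by positivity) (by positivity)
      linarith
    have h2 : L ^ 3 ≤ L ^ 6 := pow_le_pow_right₀ hL1 (by norm_num)
    calc _ ≤ 3 * L * (600 * (2 * L) * (3 * B) * L) := mul_le_mul_of_nonneg_left h1 (by positivity)
      _ = 10800 * L ^ 3 * B := by ring
      _ ≤ 10800 * L ^ 6 * B := by
          refine mul_le_mul_of_nonneg_right ?_ hB0.le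
          linarith
  have h6 : L ^ 6 ≤ (4 * Real.log N) ^ 6 := pow_le_pow_left₀ (by linarith) hL4 6
  calc _ ≤ 416 * L ^ 6 * B + 10800 * L ^ 6 * B := add_le_add ht1 ht2
    _ = 11216 * L ^ 6 * B := by ring
    _ ≤ 12000 * (4 * Real.log N) ^ 6 * B := by
        refine mul_le_mul_of_nonneg_right ?_ hB0.le
        have : 0 ≤ L ^ 6 := by positivity
        linarith

theorem large (s : ℝ) (hs : 0 < s) : ∃ N₀ : ℕ, ∀ N : ℕ, N₀ ≤ N →
    12000 * (4 * Real.log N) ^ 6 ≤ (N : ℝ) ^ s := by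
  have h1 := (isLittleO_log_rpow_rpow_atTop (6 : ℝ) hs).comp_tendsto tendsto_natCast_atTop_atTop
  have h2 := h1.bound (c := 1 / (12000 * 4096)) (by norm_num)
  obtain ⟨N₀, hN₀⟩ := eventually_atTop.1 h2
  refine ⟨max N₀ 1, fun N hN => ?_⟩
  have h3 := hN₀ N ((le_max_left _ _).trans hN)
  have hN1 : (1 : ℝ) ≤ N := by exact_mod_cast (le_max_right _ _).trans hN
  have hl : 0 ≤ Real.log N := Real.log_nonneg hN1
  simp only [Function.comp_apply] at h3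
  rw [Real.norm_of_nonneg (Real.rpow_nonneg hl _), Real.norm_of_nonneg (Real.rpow_nonneg (by linarith) _)] at h3
  have h4 : Real.log N ^ (6 : ℝ) = Real.log N ^ (6 : ℕ) := by
    rw [← Real.rpow_natCast]
    norm_num
  rw [h4] at h3
  have h5 : (4 * Real.log N) ^ 6 = 4096 * Real.log N ^ 6 := by ring
  rw [h5]
  linarith

end PRIx

open PRIx in
theorem t_PRI : S_PRI := by
  intro η hη
  set η' := min η (1 / 4) with hη'
  have h0 : 0 < η' := lt_min hη (by norm_num)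
  have h1 : η' ≤ 1 / 4 := min_le_right _ _
  obtain ⟨N₀, hN₀⟩ := large (η' / 4) (by positivity)
  refine ⟨η' / 4, by positivity, max N₀ 3, fun N hN α q c hq1 hq hq2 hcop hα N' hNN' hN' => ?_⟩
  have hN3 : 3 ≤ N := (le_max_right _ _).trans hN
  have hN1 : (1 : ℝ) ≤ N := by exact_mod_cast (by omega : 1 ≤ N)
  have hNpos : (0 : ℝ) < N := by linarith
  obtain ⟨r1, r2, r3, r4⟩ := root N (by omega)
  have hqη : (N : ℝ) ^ η' ≤ q :=
    (Real.rpow_le_rpow_of_exponent_le hN1 (min_le_left _ _)).trans hq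
  have key := Pool.Agent.H373R2.T7.block_lin hq1 hcop hα N N' (Nat.sqrt (Nat.sqrt N)) (by omega)
    hNN' hN' r1 r2
  have key2 := bound N (Nat.sqrt (Nat.sqrt N)) q η' hN3 h0 h1 hq1 hqη hq2 r1 r3 r4
  have key3 : ‖∑ n ∈ Ioc N N', ((ArithmeticFunction.vonMangoldt n : ℝ) : ℂ) * e (n * α)‖ ≤
      12000 * (4 * Real.log N) ^ 6 * (N : ℝ) ^ (1 - η' / 2) := by
    simp only [← ee_eq]
    exact key.trans key2
  refine key3.trans ?_
  have h2 := hN₀ N ((le_max_left _ _).trans hN)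
  calc 12000 * (4 * Real.log N) ^ 6 * (N : ℝ) ^ (1 - η' / 2) ≤
        (N : ℝ) ^ (η' / 4) * (N : ℝ) ^ (1 - η' / 2) :=
          mul_le_mul_of_nonneg_right h2 (Real.rpow_nonneg hNpos.le _)
    _ = (N : ℝ) ^ (1 - η' / 4) := by
        rw [← Real.rpow_add hNpos]
        congr 1
        ring

end Pool.Agent.H18Z
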