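import Pool.Agent.H18Z.Stm
import Pool.Agent.H18Z.PRI
import Pool.Agent.H373R2.T7.MinorMu

/-! Project ZE, piece MOB (helper18, after helper41's PRI). -/

set_option autoImplicit false

namespace Pool.Agent.H18Z

open Finset Polynomial Filter

namespace MOBx

open PRIx

/-- the algebra -/
theorem boundM (N U q : ℕ) (η' : ℝ) (hN : 3 ≤ N) (hη0 : 0 < η') (hη : η' ≤ 1 / 4) (hq1 : 1 ≤ q)
    (hq : (N : ℝ) ^ η' ≤ q) (hq2 : (q : ℝ) ≤ (N : ℝ) ^ (1 / 2 : ℝ)) (hU1 : 1 ≤ U)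
    (hU2 : (((U * U : ℕ)) : ℝ) ≤ (N : ℝ) ^ (1 / 2 : ℝ)) (hU3 : (N : ℝ) ^ (1 / 4 : ℝ) ≤ 2 * (U : ℝ)) :
    8 * (1 + Real.log (4 * N)) ^ 4 * Real.sqrt (672 * (1 + Real.log q) * (N * ((N : ℝ) / q + N / U + q))) +
      Real.sqrt (6 * N * (1 + Real.log (U * U : ℕ)) ^ 4) *
        Real.sqrt (600 * (Nat.log 2 (U * U) + 1 : ℝ) * ((N : ℝ) / q + (U * U : ℕ) + q) * (1 + Real.log q)) ≤
      12000 * (4 * Real.log N) ^ 6 * (N : ℝ) ^ (1 - η' / 2) := by
  have hN3 : (3 : ℝ) ≤ N := by exact_mod_cast hN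
  have hN0 : (0 : ℝ) < N := by linarith
  have hN1 : (1 : ℝ) ≤ N := by linarith
  have hq0 : (0 : ℝ) < q := by exact_mod_cast hq1
  have hU0 : (0 : ℝ) < U := by exact_mod_cast hU1
  have hln : 1 ≤ Real.log N := by
    rw [Real.le_log_iff_exp_le hN0]
    have := Real.exp_one_lt_d9
    linarith
  have hl4 : Real.log 4 ≤ 2 := by
    have h1 : Real.log 4 = 2 * Real.log 2 := by
      rw [show (4 : ℝ) = 2 ^ 2 by norm_num, Real.log_pow]
      push_cast
      ring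
    have := Real.log_two_lt_d9
    linarith
  set L := 1 + Real.log (4 * (N : ℝ)) with hL
  have hL4 : L ≤ 4 * Real.log N := by
    rw [hL, Real.log_mul (by norm_num) hN0.ne']
    linarith
  have hlL : Real.log N ≤ L := by
    rw [hL, Real.log_mul (by norm_num) hN0.ne']
    have : 0 ≤ Real.log 4 := Real.log_nonneg (by norm_num)
    linarith
  have hL1 : 1 ≤ L := hln.trans hlL
  have hlq : 1 + Real.log q ≤ L := by
    have h1 : (q : ℝ) ≤ 4 * N := by
      refine hq2.trans ?_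
      have h2 : (N : ℝ) ^ (1 / 2 : ℝ) ≤ (N : ℝ) ^ (1 : ℝ) :=
        Real.rpow_le_rpow_of_exponent_le hN1 (by norm_num)
      rw [Real.rpow_one] at h2
      linarith
    have := Real.log_le_log hq0 h1
    linarith
  have hlq0 : 0 ≤ Real.log q := Real.log_nonneg (by exact_mod_cast hq1)
  set A := (N : ℝ) ^ (1 - η') with hA
  set B := (N : ℝ) ^ (1 - η' / 2) with hB
  have hA0 : 0 < A := Real.rpow_pos_of_pos hN0 _
  have hB0 : 0 < B := Real.rpow_pos_of_pos hN0 _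
  have hAB : A ≤ B := Real.rpow_le_rpow_of_exponent_le hN1 (by linarith)
  have hNA : N * A = B * B := by
    rw [hA, hB, ← Real.rpow_add hN0]
    nth_rewrite 1 [← Real.rpow_one (N : ℝ)]
    rw [← Real.rpow_add hN0]
    congr 1
    ring
  have h12 : (N : ℝ) ^ (1 / 2 : ℝ) ≤ A := Real.rpow_le_rpow_of_exponent_le hN1 (by linarith)
  have hNq : (N : ℝ) / q ≤ A := by
    rw [div_le_iff₀ hq0]
    have h1 : A * (N : ℝ) ^ η' = N := by
      rw [hA, ← Real.rpow_add hN0, sub_add_cancel, Real.rpow_one]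
    calc (N : ℝ) = A * (N : ℝ) ^ η' := h1.symm
      _ ≤ A * q := mul_le_mul_of_nonneg_left hq hA0.le
  have hNU : (N : ℝ) / U ≤ 2 * A := by
    rw [div_le_iff₀ hU0]
    have h1 : (N : ℝ) ^ (3 / 4 : ℝ) * (N : ℝ) ^ (1 / 4 : ℝ) = N := by
      rw [← Real.rpow_add hN0]
      norm_num
    have h2 : (N : ℝ) ^ (3 / 4 : ℝ) ≤ A := Real.rpow_le_rpow_of_exponent_le hN1 (by linarith)
    have h3 : (0 : ℝ) ≤ (N : ℝ) ^ (1 / 4 : ℝ) := (Real.rpow_pos_of_pos hN0 _).le
    calc (N : ℝ) = (N : ℝ) ^ (3 / 4 : ℝ) * (N : ℝ) ^ (1 / 4 : ℝ) := h1.symm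
      _ ≤ A * (2 * U) := mul_le_mul h2 hU3 h3 hA0.le
      _ = 2 * A * U := by ring
  have hsq : Real.sqrt (672 * (1 + Real.log q) * (N * ((N : ℝ) / q + N / U + q))) ≤ 52 * L * B := by
    refine Real.sqrt_le_iff.2 ⟨by positivity, ?_⟩
    have h1 : (N : ℝ) / q + N / U + q ≤ 4 * A := by linarith
    have h2 : N * ((N : ℝ) / q + N / U + q) ≤ 4 * (B * B) := by
      rw [← hNA]
      calc N * ((N : ℝ) / q + N / U + q) ≤ N * (4 * A) := mul_le_mul_of_nonneg_left h1 hN0.le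
        _ = 4 * (N * A) := by ring
    have h3 : 672 * (1 + Real.log q) ≤ 672 * L := by linarith
    calc 672 * (1 + Real.log q) * (N * ((N : ℝ) / q + N / U + q)) ≤ 672 * L * (4 * (B * B)) :=
          mul_le_mul h3 h2 (by positivity) (by positivity)
      _ = 2688 * L * (B * B) := by ring
      _ ≤ 2704 * (L * L) * (B * B) := by
          refine mul_le_mul_of_nonneg_right ?_ (by positivity)
          nlinarith
      _ = (52 * L * B) ^ 2 := by ring
  have ht1 : 8 * L ^ 4 * Real.sqrt (672 * (1 + Real.log q) * (N * ((N : ℝ) / q + N / U + q))) ≤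
      416 * L ^ 6 * B := by
    have h2 : L ^ 5 ≤ L ^ 6 := pow_le_pow_right₀ hL1 (by norm_num)
    calc _ ≤ 8 * L ^ 4 * (52 * L * B) := mul_le_mul_of_nonneg_left hsq (by positivity)
      _ = 416 * L ^ 5 * B := by ring
      _ ≤ 416 * L ^ 6 * B := by
          refine mul_le_mul_of_nonneg_right ?_ hB0.le
          linarith
  have hpos : (0 : ℝ) < ((U * U : ℕ) : ℝ) := by exact_mod_cast Nat.mul_pos hU1 hU1
  have hone : (1 : ℝ) ≤ ((U * U : ℕ) : ℝ) := by exact_mod_cast Nat.mul_pos hU1 hU1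
  have hlU0 : 0 ≤ Real.log ((U * U : ℕ) : ℝ) := Real.log_nonneg hone
  have hlU2 : Real.log ((U * U : ℕ) : ℝ) ≤ 1 / 2 * Real.log N := by
    have h2 := Real.log_le_log hpos hU2
    rwa [Real.log_rpow hN0] at h2
  have hlU : (Nat.log 2 (U * U) + 1 : ℝ) ≤ 2 * L := by
    have h1 := logU U hU1
    linarith
  have hlU3 : 1 + Real.log ((U * U : ℕ) : ℝ) ≤ 2 * L := by linarith
  have hs2 : (N : ℝ) / q + (U * U : ℕ) + q ≤ 3 * A := by linarith
  have ht2 : Real.sqrt (6 * N * (1 + Real.log (U * U : ℕ)) ^ 4) *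
      Real.sqrt (600 * (Nat.log 2 (U * U) + 1 : ℝ) * ((N : ℝ) / q + (U * U : ℕ) + q) * (1 + Real.log q)) ≤
      10800 * L ^ 6 * B := by
    rw [← Real.sqrt_mul (by positivity)]
    refine Real.sqrt_le_iff.2 ⟨by positivity, ?_⟩
    have h1 : 600 * (Nat.log 2 (U * U) + 1 : ℝ) * ((N : ℝ) / q + (U * U : ℕ) + q) * (1 + Real.log q) ≤
        600 * (2 * L) * (3 * A) * L := by
      refine mul_le_mul ?_ hlq (by positivity) (by positivity)
      refine mul_le_mul ?_ hs2 (by positivity) (by positivity)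
      linarith
    have h2 : 6 * N * (1 + Real.log (U * U : ℕ)) ^ 4 ≤ 6 * N * (2 * L) ^ 4 := by
      refine mul_le_mul_of_nonneg_left ?_ (by positivity)
      exact pow_le_pow_left₀ (by linarith) hlU3 4
    have h3 : L ^ 6 ≤ L ^ 12 := pow_le_pow_right₀ hL1 (by norm_num)
    calc _ ≤ (6 * N * (2 * L) ^ 4) * (600 * (2 * L) * (3 * A) * L) :=
          mul_le_mul h2 h1 (by positivity) (by positivity)
      _ = 345600 * L ^ 6 * (N * A) := by ring
      _ = 345600 * L ^ 6 * (B * B) := by rw [hNA]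
      _ ≤ 116640000 * L ^ 12 * (B * B) := by
          refine mul_le_mul_of_nonneg_right ?_ (by positivity)
          have h4 : 0 ≤ L ^ 12 := by positivity
          linarith
      _ = (10800 * L ^ 6 * B) ^ 2 := by ring
  have h6 : L ^ 6 ≤ (4 * Real.log N) ^ 6 := pow_le_pow_left₀ (by linarith) hL4 6
  calc _ ≤ 416 * L ^ 6 * B + 10800 * L ^ 6 * B := add_le_add ht1 ht2
    _ = 11216 * L ^ 6 * B := by ring
    _ ≤ 12000 * (4 * Real.log N) ^ 6 * B := by
        refine mul_le_mul_of_nonneg_right ?_ hB0.le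
        have : 0 ≤ L ^ 6 := by positivity
        linarith

end MOBx

open PRIx in
theorem t_MOB : S_MOB := by
  intro η hη
  set η' := min η (1 / 4) with hη'
  have h0 : 0 < η' := lt_min hη (by norm_num)
  have h1 : η' ≤ 1 / 4 := min_le_right _ _
  obtain ⟨N₀, hN₀⟩ := large (η' / 4) (by positivity)
  refine ⟨η' / 4, by positivity, max N₀ 3, fun N hN α q c hq1 hq hq2 hcop hα N' hNN' hN' => ?_⟩
  have hN3 : 3 ≤ N := (le_max_right _ _).trans hN
  have hN1 : (1 : ℝ) ≤ N := by exact_mod_cast (by omega : 1 ≤ N)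
  have hNpos : (0 : ℝ) < N := by linarith
  obtain ⟨r1, r2, r3, r4⟩ := root N (by omega)
  have hqη : (N : ℝ) ^ η' ≤ q :=
    (Real.rpow_le_rpow_of_exponent_le hN1 (min_le_left _ _)).trans hq
  have key := Pool.Agent.H373R2.T7.block_mu hq1 hcop hα N N' (Nat.sqrt (Nat.sqrt N)) (by omega)
    hNN' hN' r1 r2
  have key2 := MOBx.boundM N (Nat.sqrt (Nat.sqrt N)) q η' hN3 h0 h1 hq1 hqη hq2 r1 r3 r4
  have key3 : ‖∑ n ∈ Ioc N N', (((ArithmeticFunction.moebius n : ℤ) : ℝ) : ℂ) * e (n * α)‖ ≤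
      12000 * (4 * Real.log N) ^ 6 * (N : ℝ) ^ (1 - η' / 2) := by
    simp only [← ee_eq]
    exact key.trans key2
  refine key3.trans ?_
  have h2 := hN₀ N ((le_max_left _ _).trans hN)
  calc 12000 * (4 * Real.log N) ^ 6 * (N : ℝ) ^ (1 - η' / 2) ≤
        (N : ℝ) ^ (η' / 4) * (N : ℝ) ^ (1 - η' / 2) :=
          mul_le_mul_of_nonneg_right h2 (Real.rpow_nonneg hNpos.le _)
    _ = (N : ℝ) ^ (1 - η' / 4) := by
        rw [← Real.rpow_add hNpos]
        congr 1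
        ring

end Pool.Agent.H18Z
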