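import Pool.Agent.H18Z.Stm

set_option autoImplicit false

namespace Pool.Agent.H18Z

open Finset

theorem RATx_one (x : ℚ) (n : ℕ) : e (((x.den : ℤ) : ℝ) * (x : ℝ) * n) = 1 := by
  unfold e
  rw [Complex.exp_eq_one_iff]
  refine ⟨x.num * n, ?_⟩
  have h1 : ((x.den : ℤ) : ℝ) * (x : ℝ) = (x.num : ℝ) := by
    have h2 : (x.den : ℚ) * x = x.num := by
      rw [mul_comm]
      exact Rat.mul_den_eq_num x
    exact_mod_cast h2
  rw [h1]
  push_cast
  ring

theorem t_RAT : S_RAT := by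
  intro x δ hδ
  have h1 : Filter.Tendsto (fun N : ℕ => (N : ℝ) ^ δ) Filter.atTop Filter.atTop :=
    (tendsto_rpow_atTop hδ).comp tendsto_natCast_atTop_atTop
  obtain ⟨N₁, hN₁⟩ := Filter.eventually_atTop.1 (h1.eventually_ge_atTop (x.den : ℝ))
  refine ⟨max N₁ 2, fun N hN => ⟨x.den, by exact_mod_cast x.den_pos.ne', ?_, ?_⟩⟩
  · have h2 := hN₁ N ((le_max_left _ _).trans hN)
    have h3 : |(((x.den : ℕ) : ℤ) : ℝ)| = (x.den : ℝ) := by
      rw [Int.cast_natCast, abs_of_nonneg (Nat.cast_nonneg _)]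
    rw [h3]
    exact h2
  · have h2 : 2 ≤ N := (le_max_right _ _).trans hN
    have h3 : (1 : ℝ) < N := by exact_mod_cast h2
    have h4 : ∑ n ∈ range N, e (((x.den : ℤ) : ℝ) * (x : ℝ) * n) = N := by
      rw [Finset.sum_congr rfl fun n _ => RATx_one x n]
      simp
    rw [h4, Complex.norm_natCast]
    calc (N : ℝ) ^ (1 - δ) < (N : ℝ) ^ (1 : ℝ) := Real.rpow_lt_rpow_of_exponent_lt h3 (by linarith)
      _ = N := Real.rpow_one _

end Pool.Agent.H18Z
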