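import Pool.Agent.H18Z.Stm

/-!
# Piece WEY (project ZE): Weyl sums with a leading coefficient which is not near a fraction
-/

set_option autoImplicit false

namespace Pool.Agent.H18Z

open Finset Polynomial Filter

namespace WEY

theorem e_eq (x : ℝ) : e x = Pool.Agent.Helper602.MK.ee x := by
  unfold e Pool.Agent.Helper602.MK.ee
  congr 1
  ring

/-- one pair of constants for all degrees up to `D` -/
theorem consts (D : ℕ) : ∃ c m : ℕ, 1 ≤ c ∧ ∀ d : ℕ, 1 ≤ d → d ≤ D → ∀ (N : ℕ) (u α : ℝ) (φ : ℕ → ℝ),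
    1 ≤ N → 1 ≤ u → Pool.Agent.H373R2.NB.Ph d α φ →
    (N : ℝ) ≤ u * ‖∑ n ∈ range N, Pool.Agent.Helper602.MK.ee (φ n)‖ →
    ∃ q : ℕ, 1 ≤ q ∧ (q : ℝ) ≤ c * u ^ m ∧ ∃ a : ℤ, |q * α - a| ≤ c * u ^ m / (N : ℝ) ^ d := by
  have h : ∀ d : ℕ, ∃ c m : ℕ, 1 ≤ d → 1 ≤ c ∧ ∀ (N : ℕ) (u α : ℝ) (φ : ℕ → ℝ),
      1 ≤ N → 1 ≤ u → Pool.Agent.H373R2.NB.Ph d α φ →
      (N : ℝ) ≤ u * ‖∑ n ∈ range N, Pool.Agent.Helper602.MK.ee (φ n)‖ →
      ∃ q : ℕ, 1 ≤ q ∧ (q : ℝ) ≤ c * u ^ m ∧ ∃ a : ℤ, |q * α - a| ≤ c * u ^ m / (N : ℝ) ^ d := by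
    intro d
    by_cases hd : 1 ≤ d
    · obtain ⟨c, m, h1, h2⟩ := Pool.Agent.H373R2.NB.IW_all d hd
      exact ⟨c, m, fun _ => ⟨h1, h2⟩⟩
    · exact ⟨0, 0, fun h => absurd h hd⟩
  choose cf mf hf using h
  refine ⟨1 + ∑ d ∈ range (D + 1), cf d, ∑ d ∈ range (D + 1), mf d, by omega, ?_⟩
  intro d hd hdD N u α φ hN hu hφ hS
  obtain ⟨q, hq1, hq2, a, ha⟩ := (hf d hd).2 N u α φ hN hu hφ hS
  have hmem : d ∈ range (D + 1) := mem_range.2 (by omega)
  have hc : cf d ≤ 1 + ∑ d ∈ range (D + 1), cf d := by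
    have := single_le_sum (f := cf) (fun i _ => Nat.zero_le _) hmem
    omega
  have hm : mf d ≤ ∑ d ∈ range (D + 1), mf d := single_le_sum (f := mf) (fun i _ => Nat.zero_le _) hmem
  have hle : (cf d : ℝ) * u ^ mf d ≤
      ((1 + ∑ d ∈ range (D + 1), cf d : ℕ) : ℝ) * u ^ (∑ d ∈ range (D + 1), mf d) := by
    refine mul_le_mul (by exact_mod_cast hc) (pow_le_pow_right₀ hu hm) (by positivity) (by positivity)
  refine ⟨q, hq1, hq2.trans hle, a, ha.trans ?_⟩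
  exact div_le_div_of_nonneg_right hle (by positivity)

end WEY

theorem t_WEY (hPHP : S_PHP) : S_WEY := by
  intro D θ hθ
  obtain ⟨c, m, hc, hIW⟩ := WEY.consts D
  set δ : ℝ := min (θ / (2 * (m + 1))) (1 / (4 * (m + 1))) with hδ
  have hδ0 : 0 < δ := lt_min (by positivity) (by positivity)
  have hm1 : (0:ℝ) < (m:ℝ) + 1 := by positivity
  have hδ1 : δ * (m + 1) ≤ θ / 2 := by
    have h := min_le_left (θ / (2 * (m + 1))) (1 / (4 * (m + 1)))
    calc δ * (m + 1) ≤ θ / (2 * (m + 1)) * (m + 1) := mul_le_mul_of_nonneg_right h hm1.le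
      _ = θ / 2 := by field_simp
  have hδ2 : δ * (m + 1) ≤ 1 / 4 := by
    have h := min_le_right (θ / (2 * (m + 1))) (1 / (4 * ((m:ℝ) + 1)))
    calc δ * (m + 1) ≤ 1 / (4 * (m + 1)) * (m + 1) := mul_le_mul_of_nonneg_right h hm1.le
      _ = 1 / 4 := by field_simp
  have ev1 : ∀ᶠ N : ℕ in atTop, (c : ℝ) * D.factorial ≤ (N : ℝ) ^ (θ / 2) :=
    ((tendsto_rpow_atTop (by positivity : 0 < θ / 2)).comp
      tendsto_natCast_atTop_atTop).eventually_ge_atTop _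
  have ev2 : ∀ᶠ N : ℕ in atTop, (c : ℝ) ≤ (N : ℝ) ^ (1 / 4 : ℝ) :=
    ((tendsto_rpow_atTop (by norm_num : (0:ℝ) < 1 / 4)).comp
      tendsto_natCast_atTop_atTop).eventually_ge_atTop _
  obtain ⟨N₀, hN₀⟩ := eventually_atTop.1 ((ev1.and ev2).and (eventually_ge_atTop 1))
  refine ⟨δ, hδ0, N₀, fun N hN x hx P hP1 hPD k hk hkN hlead => ?_⟩
  obtain ⟨⟨h1, h2⟩, hN1⟩ := hN₀ N hN
  have hNR : (1:ℝ) ≤ N := by exact_mod_cast hN1
  have hN0 : (0:ℝ) < N := by linarith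
  by_contra hcon
  push Not at hcon
  set d := P.natDegree with hd
  set u : ℝ := (N : ℝ) ^ δ with hu
  have hu1 : 1 ≤ u := Real.one_le_rpow hNR hδ0.le
  have hu0 : 0 < u := by linarith
  have hsum : (N : ℝ) ≤ u * ‖∑ n ∈ range N, Pool.Agent.Helper602.MK.ee (P.eval (n : ℝ))‖ := by
    have e1 : ∑ n ∈ range N, Pool.Agent.Helper602.MK.ee (P.eval (n : ℝ)) =
        ∑ n ∈ range N, e (P.eval (n : ℝ)) := sum_congr rfl fun n _ => (WEY.e_eq _).symm
    rw [e1]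
    calc (N : ℝ) = (N : ℝ) ^ δ * (N : ℝ) ^ (1 - δ) := by
          rw [← Real.rpow_add hN0]
          simp
      _ ≤ u * ‖∑ n ∈ range N, e (P.eval (n : ℝ))‖ := mul_le_mul_of_nonneg_left hcon.le hu0.le
  obtain ⟨q, hq1, hq2, a, ha⟩ := hIW d hP1 hPD N u _ _ hN1 hu1 (hPHP d P le_rfl) hsum
  have hcoeff : P.coeff d = k * x := by rw [← hlead]; rfl
  rw [hcoeff] at ha
  -- the powers of `u`
  have hupow : u ^ (m + 1) = (N : ℝ) ^ (δ * (m + 1)) := by
    rw [hu, ← Real.rpow_natCast, ← Real.rpow_mul hN0.le]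
    push_cast
    rfl
  have hum : u ^ m ≤ u ^ (m + 1) := pow_le_pow_right₀ hu1 (by omega)
  have hum1 : u ^ (m + 1) ≤ (N : ℝ) ^ (θ / 2) := by
    rw [hupow]
    exact Real.rpow_le_rpow_of_exponent_le hNR hδ1
  have hum2 : u ^ (m + 1) ≤ (N : ℝ) ^ (1 / 4 : ℝ) := by
    rw [hupow]
    exact Real.rpow_le_rpow_of_exponent_le hNR hδ2
  have hfac : (d.factorial : ℝ) ≤ D.factorial := by exact_mod_cast Nat.factorial_le hPD
  have hc0 : (0:ℝ) ≤ c := Nat.cast_nonneg c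
  -- the denominator
  set Q : ℕ := q * d.factorial * k.natAbs with hQ
  have hkabs : ((k.natAbs : ℕ) : ℝ) = |(k : ℝ)| := by
    rw [Nat.cast_natAbs, Int.cast_abs]
  have hQR : (Q : ℝ) = q * d.factorial * |(k : ℝ)| := by
    rw [hQ]
    push_cast
    rw [← hkabs]
  have hQ1 : 1 ≤ Q := by
    have h3 : 0 < k.natAbs := Int.natAbs_pos.2 hk
    have h4 := Nat.factorial_pos d
    have : 0 < q * d.factorial * k.natAbs := by positivity
    exact this
  have hQN : (Q : ℝ) ≤ (N : ℝ) ^ θ := by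
    rw [hQR]
    calc (q : ℝ) * d.factorial * |(k : ℝ)| ≤ (c * u ^ m) * D.factorial * u := by
          refine mul_le_mul (mul_le_mul hq2 hfac (by positivity) (by positivity)) hkN
            (abs_nonneg _) (by positivity)
      _ = (c * D.factorial) * u ^ (m + 1) := by ring
      _ ≤ (N : ℝ) ^ (θ / 2) * (N : ℝ) ^ (θ / 2) :=
          mul_le_mul h1 hum1 (by positivity) (by positivity)
      _ = (N : ℝ) ^ θ := by
          rw [← Real.rpow_add hN0]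
          congr 1
          ring
  -- the distance
  have hdist : |(q : ℝ) * ((d.factorial : ℝ) * (k * x)) - a| ≤ (N : ℝ) ^ (-(1 / 2) : ℝ) := by
    refine ha.trans ?_
    have h3 : (N : ℝ) ≤ (N : ℝ) ^ d := by
      calc (N : ℝ) = (N : ℝ) ^ 1 := (pow_one _).symm
        _ ≤ (N : ℝ) ^ d := pow_le_pow_right₀ hNR hP1
    calc c * u ^ m / (N : ℝ) ^ d ≤ c * u ^ m / N :=
          div_le_div_of_nonneg_left (by positivity) hN0 h3
      _ ≤ ((N : ℝ) ^ (1 / 4 : ℝ) * (N : ℝ) ^ (1 / 4 : ℝ)) / N := by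
          refine div_le_div_of_nonneg_right ?_ hN0.le
          exact mul_le_mul h2 (hum.trans hum2) (by positivity) (by positivity)
      _ = (N : ℝ) ^ (-(1 / 2) : ℝ) := by
          rw [div_eq_mul_inv, ← Real.rpow_neg_one, ← Real.rpow_add hN0, ← Real.rpow_add hN0]
          norm_num
  rcases lt_or_gt_of_ne hk with hneg | hpos
  · have h3 := hx Q hQ1 hQN (-a)
    have hk' : |(k : ℝ)| = -(k : ℝ) := abs_of_neg (by exact_mod_cast hneg)
    have e2 : (Q : ℝ) * x - ((-a : ℤ) : ℝ) = -((q : ℝ) * ((d.factorial : ℝ) * (k * x)) - a) := by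
      rw [hQR, hk']
      push_cast
      ring
    rw [e2, abs_neg] at h3
    exact absurd hdist (not_le.2 h3)
  · have h3 := hx Q hQ1 hQN a
    have hk' : |(k : ℝ)| = (k : ℝ) := abs_of_pos (by exact_mod_cast hpos)
    have e2 : (Q : ℝ) * x - (a : ℝ) = (q : ℝ) * ((d.factorial : ℝ) * (k * x)) - a := by
      rw [hQR, hk']
      ring
    rw [e2] at h3
    exact absurd hdist (not_le.2 h3)

end Pool.Agent.H18Z
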