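import Pool.Agent.H18Z.Asm
import Pool.Agent.H18Z.GOO
import Pool.Agent.H18Z.PHP
import Pool.Agent.H18Z.WEY
import Pool.Agent.H18Z.DIR
import Pool.Agent.H18Z.PRI
import Pool.Agent.H18Z.MOB
import Pool.Agent.H18Z.RAT

set_option autoImplicit false

namespace Pool.Agent.H18Z

theorem main (ζ : ℕ → ℝ) (T : Finset ℕ) (κ : ℕ) (h : Meas ζ T κ) (D : ℕ) :
    ∃ δ : ℝ, 0 < δ ∧ ∃ N₀ : ℕ, ∀ N : ℕ, N₀ ≤ N → ∃ j ∈ T, PowerSaving D δ N (ζ j) :=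
  scales t_GOO (t_WEY t_PHP) t_DIR t_PRI t_MOB ζ T κ h D

theorem main_one (ζ : ℕ → ℝ) (T : Finset ℕ) (κ : ℕ) (h : Meas ζ T κ) :
    ∃ j ∈ T, ∀ D : ℕ, ∃ δ : ℝ, 0 < δ ∧ ∀ N₀ : ℕ, ∃ N : ℕ, N₀ ≤ N ∧ PowerSaving D δ N (ζ j) :=
  one_number ζ T (main ζ T κ h)

theorem main_rat (x : ℚ) (hx : x ≠ 0) (D : ℕ) (hD : 1 ≤ D) (δ : ℝ) (hδ : 0 < δ) :
    ∃ N₀ : ℕ, ∀ N : ℕ, N₀ ≤ N → ¬ PowerSaving D δ N (x : ℝ) :=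
  rational_fails t_RAT x hx D hD δ hδ

end Pool.Agent.H18Z
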