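import Mathlib
import Pool.Agent.H18Z.Stm

set_option autoImplicit false

namespace Pool.Agent.H18Z

open Finset Polynomial

/-- Power saving `δ` at the scale `N` for the number `x`: all Weyl sums of length `N` with polynomials of degree between
`1` and `D` and leading coefficient `k x`, `1 ≤ |k| ≤ N ^ δ` (all other coefficients are arbitrary real numbers), and the
sums of `Λ(n) e(n k x)` and of `μ(n) e(n k x)` over the blocks `N < n ≤ N'`, `N' ≤ 2 N`, are at most `N ^ (1 - δ)`. -/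
structure PowerSaving (D : ℕ) (δ : ℝ) (N : ℕ) (x : ℝ) : Prop where
  weyl : ∀ P : ℝ[X], 1 ≤ P.natDegree → P.natDegree ≤ D → ∀ k : ℤ, k ≠ 0 → |(k : ℝ)| ≤ (N : ℝ) ^ δ →
    P.leadingCoeff = k * x → ‖∑ n ∈ range N, e (P.eval (n : ℝ))‖ ≤ (N : ℝ) ^ (1 - δ)
  primes : ∀ k : ℤ, k ≠ 0 → |(k : ℝ)| ≤ (N : ℝ) ^ δ → ∀ N' : ℕ, N ≤ N' → N' ≤ 2 * N →
    ‖∑ n ∈ Ioc N N', ((ArithmeticFunction.vonMangoldt n : ℝ) : ℂ) * e (n * (k * x))‖ ≤ (N : ℝ) ^ (1 - δ)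
  moebius : ∀ k : ℤ, k ≠ 0 → |(k : ℝ)| ≤ (N : ℝ) ^ δ → ∀ N' : ℕ, N ≤ N' → N' ≤ 2 * N →
    ‖∑ n ∈ Ioc N N', (((ArithmeticFunction.moebius n : ℤ) : ℝ) : ℂ) * e (n * (k * x))‖ ≤ (N : ℝ) ^ (1 - δ)

theorem PowerSaving.mono {D D' : ℕ} (hD : D' ≤ D) {δ : ℝ} {N : ℕ} {x : ℝ} (h : PowerSaving D δ N x) :
    PowerSaving D' δ N x :=
  ⟨fun P h1 h2 => h.weyl P h1 (h2.trans hD), h.primes, h.moebius⟩

theorem scales (hG : S_GOO) (hW : S_WEY) (hD : S_DIR) (hP : S_PRI) (hM : S_MOB) (ζ : ℕ → ℝ) (T : Finset ℕ) (κ : ℕ)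
    (h : Meas ζ T κ) (D : ℕ) :
    ∃ δ : ℝ, 0 < δ ∧ ∃ N₀ : ℕ, ∀ N : ℕ, N₀ ≤ N → ∃ j ∈ T, PowerSaving D δ N (ζ j) := by
  obtain ⟨θ, hθ, hθ2⟩ : ∃ θ : ℝ, 0 < θ ∧ 2 * ((κ : ℝ) * T.card) * θ < 1 := by
    have h0 : (0 : ℝ) ≤ 2 * ((κ : ℝ) * T.card) := by positivity
    refine ⟨1 / (2 * (2 * ((κ : ℝ) * T.card)) + 1), by positivity, ?_⟩
    rw [mul_one_div, div_lt_one (by positivity)]
    linarith
  obtain ⟨N₁, h1⟩ := hG ζ T κ h θ hθ hθ2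
  obtain ⟨δ₂, hδ₂, N₂, h2⟩ := hW D θ hθ
  obtain ⟨δ₃, hδ₃, N₃, h3⟩ := hP (θ / 2) (by linarith)
  obtain ⟨δ₄, hδ₄, N₄, h4⟩ := hM (θ / 2) (by linarith)
  refine ⟨min (min δ₂ (θ / 2)) (min δ₃ δ₄), by positivity, max (max N₁ N₂) (max (max N₃ N₄) 1), fun N hN => ?_⟩
  set δ : ℝ := min (min δ₂ (θ / 2)) (min δ₃ δ₄) with hδ
  have l2 : δ ≤ δ₂ := (min_le_left _ _).trans (min_le_left _ _)
  have lθ : δ ≤ θ / 2 := (min_le_left _ _).trans (min_le_right _ _)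
  have l3 : δ ≤ δ₃ := (min_le_right _ _).trans (min_le_left _ _)
  have l4 : δ ≤ δ₄ := (min_le_right _ _).trans (min_le_right _ _)
  have m1 : N₁ ≤ N := ((le_max_left _ _).trans (le_max_left _ _)).trans hN
  have m2 : N₂ ≤ N := ((le_max_right _ _).trans (le_max_left _ _)).trans hN
  have m3 : N₃ ≤ N := (((le_max_left _ _).trans (le_max_left _ _)).trans (le_max_right _ _)).trans hN
  have m4 : N₄ ≤ N := (((le_max_right _ _).trans (le_max_left _ _)).trans (le_max_right _ _)).trans hN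
  have m5 : 1 ≤ N := ((le_max_right _ _).trans (le_max_right _ _)).trans hN
  have hN1 : (1 : ℝ) ≤ N := by exact_mod_cast m5
  obtain ⟨j, hj, hg⟩ := h1 N m1
  have key : ∀ k : ℤ, k ≠ 0 → |(k : ℝ)| ≤ (N : ℝ) ^ δ → ∃ (q : ℕ) (c : ℤ), 1 ≤ q ∧ (N : ℝ) ^ (θ / 2) ≤ q ∧
      (q : ℝ) ≤ (N : ℝ) ^ (1 / 2 : ℝ) ∧ IsCoprime c (q : ℤ) ∧ |k * ζ j - c / q| ≤ 1 / (q : ℝ) ^ 2 := by
    intro k hk hkN
    obtain ⟨q, c, q1, q2, q3, q4, q5⟩ := hD N θ δ (ζ j) k m5 hg hk hkN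
    exact ⟨q, c, q1, (Real.rpow_le_rpow_of_exponent_le hN1 (by linarith)).trans q2, q3, q4, q5⟩
  refine ⟨j, hj, ⟨fun P p1 p2 k hk hkN hl => ?_, fun k hk hkN N' n1 n2 => ?_, fun k hk hkN N' n1 n2 => ?_⟩⟩
  · exact (h2 N m2 (ζ j) hg P p1 p2 k hk (hkN.trans (Real.rpow_le_rpow_of_exponent_le hN1 l2)) hl).trans
      (Real.rpow_le_rpow_of_exponent_le hN1 (by linarith))
  · obtain ⟨q, c, q1, q2, q3, q4, q5⟩ := key k hk hkN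
    exact (h3 N m3 _ q c q1 q2 q3 q4 q5 N' n1 n2).trans (Real.rpow_le_rpow_of_exponent_le hN1 (by linarith))
  · obtain ⟨q, c, q1, q2, q3, q4, q5⟩ := key k hk hkN
    exact (h4 N m4 _ q c q1 q2 q3 q4 q5 N' n1 n2).trans (Real.rpow_le_rpow_of_exponent_le hN1 (by linarith))

theorem one_number (ζ : ℕ → ℝ) (T : Finset ℕ)
    (h : ∀ D : ℕ, ∃ δ : ℝ, 0 < δ ∧ ∃ N₀ : ℕ, ∀ N : ℕ, N₀ ≤ N → ∃ j ∈ T, PowerSaving D δ N (ζ j)) :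
    ∃ j ∈ T, ∀ D : ℕ, ∃ δ : ℝ, 0 < δ ∧ ∀ N₀ : ℕ, ∃ N : ℕ, N₀ ≤ N ∧ PowerSaving D δ N (ζ j) := by
  by_contra hcon
  push Not at hcon
  choose! D hD using hcon
  obtain ⟨δ, hδ, N₀, hN⟩ := h (T.sup D)
  have h1 : ∀ j ∈ T, ∃ N₁ : ℕ, ∀ N : ℕ, N₁ ≤ N → ¬ PowerSaving (D j) δ N (ζ j) := fun j hj => hD j hj δ hδ
  choose! M hM using h1
  obtain ⟨j, hj, hp⟩ := hN (max N₀ (T.sup M)) (le_max_left _ _)
  exact hM j hj _ ((Finset.le_sup hj).trans (le_max_right _ _)) (hp.mono (Finset.le_sup hj))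

theorem rational_fails (hR : S_RAT) (x : ℚ) (hx : x ≠ 0) (D : ℕ) (hD : 1 ≤ D) (δ : ℝ) (hδ : 0 < δ) :
    ∃ N₀ : ℕ, ∀ N : ℕ, N₀ ≤ N → ¬ PowerSaving D δ N (x : ℝ) := by
  obtain ⟨N₀, h⟩ := hR x δ hδ
  refine ⟨N₀, fun N hN hp => ?_⟩
  obtain ⟨k, hk, hkN, hs⟩ := h N hN
  have hx' : (x : ℝ) ≠ 0 := by exact_mod_cast hx
  have hkx : (k : ℝ) * x ≠ 0 := mul_ne_zero (by exact_mod_cast hk) hx'
  have h1 := hp.weyl (C ((k : ℝ) * x) * X) (by rw [natDegree_C_mul_X _ hkx]) (by rw [natDegree_C_mul_X _ hkx]; exact hD)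
    k hk hkN (by rw [leadingCoeff_C_mul_X])
  simp only [eval_mul, eval_C, eval_X] at h1
  linarith

end Pool.Agent.H18Z
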